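import Pool.Agent.K7.H43.PW.Top
import Pool.Agent.Y55.Col.Ind

/-!
Perfect power numbers of points of the same multiplicity: the new cases.
-/

set_option autoImplicit false

namespace Pool.Agent.K7.H43.PW

open MvPolynomial Finset Pool.Agent.H938R2 Pool.Agent.TH176.FB Pool.Agent.Y55.Col

/-- The number `e = t ^ r + (r - 1) * binom (c + r) r - binom (t + c + r) r`. -/
def eN (r t c : ℕ) : ℕ :=
  t ^ r + (r - 1) * (c + r).choose r - (t + c + r).choose r

/-- The cases. -/
def Cn (r t m d : ℕ) : Prop :=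
  Cs r t m d ∨ m = 1 ∨
    (∃ c, c < t ∧ d = t * m + c ∧ (c + r).choose r ≤ m * (eN r t c / (r - 1))) ∨
    (r = 3 ∧ (d + 3 = t * (m + 1) ∨ (t - 2) * (t - 3) ≤ 6 * m * (t + 1))) ∨
    (r = 4 ∧ t = 5) ∨ (r = 5 ∧ t = 3)

/-- Emptiness for simple points. -/
lemma emp_simple (n D N : ℕ) (h : cnt n D ≤ N) : Emp (n + 1) D (Multiset.replicate N 1) := by
  have h2 := emp_of_finrank (E := n + 1) (D := D) (s := N) (J := Empty) (fun _ => 0)
    (fun _ _ => 0) (by
      refine (Submodule.finrank_mono (inf_le_left :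
        Vd D _ _ ≤ restrictSupport ℂ {a : Fin (n + 1) →₀ ℕ | a.degree < D})).trans ?_
      rw [finrank_restrictSupport, Nat.card_coe_set_eq,
        Set.ncard_eq_toFinset_card _ (Finsupp.finite_of_degree_lt D)]
      have h3 := card_B n D
      unfold B at h3
      rw [h3]
      exact h)
  simpa using h2

lemma ind_simple (n D N : ℕ) (h : N ≤ cnt n D) : Ind n D (Multiset.replicate N 1) := by
  refine ⟨cnt n D - N, ?_, ?_⟩
  · rw [← Multiset.replicate_add]
    exact emp_simple n D _ (by omega)
  · rw [Multiset.map_replicate, Multiset.sum_replicate, smul_eq_mul]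
    have : cnt n 1 = 1 := by
      unfold cnt
      rw [add_comm, Nat.choose_self]
    rw [this]
    omega

/-- Simple points. -/
lemma simple (k N d : ℕ) :
    ForGeneral (k + 2) N (fun p =>
      Module.finrank ℂ (forms (k + 2) d (fun _ => 1) p) =
        (d + (k + 1)).choose (k + 1) - N * (1 + k).choose (k + 1)) := by
  have e1 : cnt k (d + 1) = (d + (k + 1)).choose (k + 1) := by
    unfold cnt
    congr 1
    omega
  have e2 : (1 + k).choose (k + 1) = 1 := by rw [add_comm, Nat.choose_self]
  have e3 : (univ : Finset (Fin N)).val.map (fun _ => 1) = Multiset.replicate N 1 := by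
    rw [Multiset.map_const', Finset.card_val, Finset.card_univ, Fintype.card_fin]
  rcases Nat.le_total N (cnt k (d + 1)) with h | h
  · have h1 := general_of_ind (n := k) (k := N) (d := d) (m := fun _ => 1)
      (by rw [e3]; exact ind_simple k (d + 1) N h)
    refine h1.mono fun p hp => ?_
    rw [Finset.sum_const, Finset.card_univ, Fintype.card_fin, smul_eq_mul] at hp
    omega
  · have h1 := general_of_emp (n := k) (k := N) (d := d) (m := fun _ => 1)
      (by rw [e3]; exact emp_simple k (d + 1) N h)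
    refine h1.mono fun p hp => ?_
    rw [hp, finrank_bot, e2]
    omega

/-- The number `e` for space. -/
lemma eN_three {t c : ℕ} (h : c + 4 ≤ t) :
    6 * eN 3 t c = 6 * ((t - 2 - c) * t ^ 2) - (t - 1 - c) * (t - 2 - c) * (t - 3 - c) ∧
      2 * t ^ 2 ≤ eN 3 t c + 1 := by
  obtain ⟨u, rfl⟩ : ∃ u, t = c + u + 4 := ⟨t - c - 4, by omega⟩
  have h2 := six_choose (c + 1)
  have h3 := six_choose (c + u + 4 + c + 1)
  have e5 : c + 1 + 2 = c + 3 := by ring
  have e6 : c + u + 4 + c + 1 + 2 = c + u + 4 + c + 3 := by ring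
  rw [e5] at h2
  rw [e6] at h3
  have e1 : c + u + 4 - 2 - c = u + 2 := by omega
  have e2 : c + u + 4 - 1 - c = u + 3 := by omega
  have e3 : c + u + 4 - 3 - c = u + 1 := by omega
  rw [e1, e2, e3]
  have h5 : 6 * (c + u + 4 + c + 3).choose 3 + 6 * ((u + 2) * (c + u + 4) ^ 2) =
      6 * (c + u + 4) ^ 3 + 2 * (6 * (c + 3).choose 3) + (u + 3) * (u + 2) * (u + 1) := by
    rw [h2, h3]
    ring
  have h6 : (u + 3) * (u + 2) * (u + 1) + 12 * (c + u + 4) ^ 2 ≤
      6 * ((u + 2) * (c + u + 4) ^ 2) + 6 := by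
    nlinarith [Nat.zero_le (u * c), Nat.zero_le (u * u), Nat.zero_le (u * u * u),
      Nat.zero_le (u * (c * c)), Nat.zero_le (u * (c * u))]
  have h7 : 3 - 1 = 2 := rfl
  unfold eN
  rw [h7]
  constructor <;> omega

/-- The window in space. -/
lemma space_window (t m c : ℕ) (hc : c + 4 ≤ t) (hm : 1 ≤ m)
    (h : (t - 2) * (t - 3) ≤ 6 * m * (t + 1)) :
    (c + 3).choose 3 ≤ m * (eN 3 t c / (3 - 1)) := by
  have h1 := (eN_three hc).2
  obtain ⟨u, rfl⟩ : ∃ u, t = u + 4 := ⟨t - 4, by omega⟩
  have h2 : (u + 4) ^ 2 - 1 ≤ eN 3 (u + 4) c / (3 - 1) := by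
    have : 3 - 1 = 2 := rfl
    rw [this]
    omega
  have e1 : u + 4 - 2 = u + 2 := by omega
  have e2 : u + 4 - 3 = u + 1 := by omega
  rw [e1, e2] at h
  have h3 : (u + 4) ^ 2 - 1 = (u + 3) * (u + 5) := by
    have : (u + 4) ^ 2 = (u + 3) * (u + 5) + 1 := by ring
    omega
  rw [h3] at h2
  refine le_trans ?_ (Nat.mul_le_mul_left m h2)
  have h4 : (c + 3).choose 3 ≤ (u + 3).choose 3 := Nat.choose_le_choose _ (by omega)
  refine h4.trans ?_
  have h5 := six_choose (u + 1)
  have e3 : u + 1 + 2 = u + 3 := by ring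
  rw [e3] at h5
  have h6 : (u + 3) * ((u + 2) * (u + 1)) ≤ (u + 3) * (6 * m * (u + 4 + 1)) :=
    Nat.mul_le_mul_left _ h
  have h7 : 6 * (u + 3).choose 3 ≤ 6 * (m * ((u + 3) * (u + 5))) := by
    rw [h5]
    calc (u + 3) * (u + 1 + 1) * (u + 1) = (u + 3) * ((u + 2) * (u + 1)) := by ring
      _ ≤ _ := h6
      _ = _ := by ring
  omega

theorem uniform' (k t m d : ℕ) (ht : 2 ≤ t) (hm : 1 ≤ m) (h : Cn (k + 1) t m d) :
    ForGeneral (k + 2) (t ^ (k + 1)) (fun p =>
      Module.finrank ℂ (forms (k + 2) d (fun _ => m) p) =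
        (d + (k + 1)).choose (k + 1) - t ^ (k + 1) * (m + k).choose (k + 1)) := by
  have win : ∀ c, c < t → d = t * m + c →
      (c + (k + 1)).choose (k + 1) ≤ m * (eN (k + 1) t c / (k + 1 - 1)) →
      ForGeneral (k + 2) (t ^ (k + 1)) (fun p =>
        Module.finrank ℂ (forms (k + 2) d (fun _ => m) p) =
        (d + (k + 1)).choose (k + 1) - t ^ (k + 1) * (m + k).choose (k + 1)) := by
    intro c hc hd hle
    rw [hd]
    refine window k t m c hc hm ?_
    rw [Nat.add_sub_cancel] at hle
    unfold eN at hle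
    rw [Nat.add_sub_cancel] at hle
    exact hle
  rcases h with h | h | ⟨c, hc, hd, hle⟩ | ⟨hr, h⟩ | ⟨hr, hT⟩ | ⟨hr, hT⟩
  · exact uniform k t m d ht hm h
  · subst h
    exact simple k _ d
  · exact win c hc hd hle
  · obtain rfl : k = 2 := by omega
    by_cases hlow : d < t * m
    · exact uniform 2 t m d ht hm (Or.inr (Or.inl hlow))
    by_cases hhigh : 2 * t * m + 2 * t ≤ 2 * d + 4
    · exact uniform 2 t m d ht hm (Or.inr (Or.inr (Or.inl hhigh)))
    obtain ⟨c, hc⟩ : ∃ c, d = t * m + c := ⟨d - t * m, by omega⟩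
    have hct : c + 3 ≤ t := by
      have : 2 * t * m = 2 * (t * m) := by ring
      omega
    rcases Nat.lt_or_ge (c + 3) t with h1 | h1
    · rcases h with h | h
      · exfalso
        have : t * (m + 1) = t * m + t := by ring
        omega
      · exact win c (by omega) hc (space_window t m c (by omega) hm h)
    · have h2 := space_top t m (by omega) hm
      have h3 : c = t - 3 := by omega
      rw [← h3, ← hc] at h2
      exact h2
  · obtain rfl : k = 3 := by omega
    subst hT
    by_cases hm1 : m = 1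
    · subst hm1
      exact simple 3 _ d
    by_cases hlow : d < 5 * m
    · exact uniform 3 5 m d ht hm (Or.inr (Or.inl hlow))
    by_cases hhigh : 2 * 5 * m + 3 * 5 ≤ 2 * d + 5
    · exact uniform 3 5 m d ht hm (Or.inr (Or.inr (Or.inl hhigh)))
    obtain ⟨c, hc⟩ : ∃ c, d = 5 * m + c := ⟨d - 5 * m, by omega⟩
    have hct : c ≤ 4 := by omega
    refine win c (by omega) hc ?_
    have h2 : 2 ≤ m := by omega
    refine le_trans ?_ (Nat.mul_le_mul_right _ h2)
    interval_cases c <;> decide
  · obtain rfl : k = 4 := by omega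
    subst hT
    by_cases hm1 : m = 1
    · subst hm1
      exact simple 4 _ d
    by_cases hlow : d < 3 * m
    · exact uniform 4 3 m d ht hm (Or.inr (Or.inl hlow))
    by_cases hhigh : 2 * 3 * m + 4 * 3 ≤ 2 * d + 6
    · exact uniform 4 3 m d ht hm (Or.inr (Or.inr (Or.inl hhigh)))
    obtain ⟨c, hc⟩ : ∃ c, d = 3 * m + c := ⟨d - 3 * m, by omega⟩
    have hct : c ≤ 2 := by omega
    refine win c (by omega) hc ?_
    have h2 : 2 ≤ m := by omega
    refine le_trans ?_ (Nat.mul_le_mul_right _ h2)
    interval_cases c <;> decide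

/-- Emptiness, also for one point. -/
theorem uniform_zero' (k t m d : ℕ) (ht : 1 ≤ t) (h : Cn (k + 1) t m d)
    (hd : (d + (k + 1)).choose (k + 1) ≤ t ^ (k + 1) * (m + k).choose (k + 1)) :
    ForGeneral (k + 2) (t ^ (k + 1)) (fun p =>
      Module.finrank ℂ (forms (k + 2) d (fun _ => m) p) = 0) := by
  have hm : 1 ≤ m := by
    by_contra hcon
    have h1 : m = 0 := by omega
    subst h1
    rw [zero_add, Nat.choose_succ_self, mul_zero] at hd
    have := Nat.choose_pos (show k + 1 ≤ d + (k + 1) by omega)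
    omega
  rcases Nat.eq_or_lt_of_le ht with ht1 | ht2
  · subst ht1
    have hdm : d < m := by
      by_contra hcon
      rw [one_pow, one_mul] at hd
      have h1 : (m + k).choose (k + 1) < (m + k + 1).choose (k + 1) := by
        rw [Nat.choose_succ_succ' (m + k) k]
        have := Nat.choose_pos (show k ≤ m + k by omega)
        omega
      have h2 : (m + k + 1).choose (k + 1) ≤ (d + (k + 1)).choose (k + 1) :=
        Nat.choose_le_choose _ (by omega)
      omega
    refine (Pool.Agent.TH176.FB.fat_low k 1 m d le_rfl (by omega)).mono fun p hp => ?_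
    rw [hp]
    omega
  · refine (uniform' k t m d ht2 hm h).mono fun p hp => ?_
    rw [hp]
    omega

/-- Perfect power numbers of points. -/
theorem ind_powers' (n t μ d : ℕ) (ht : 1 ≤ t) (hc : Cn (n + 1) t μ d)
    (h : t ^ (n + 1) * (μ + n).choose (n + 1) ≤ (d + (n + 1)).choose (n + 1)) :
    Ind n (d + 1) (Multiset.replicate (t ^ (n + 1)) μ) := by
  have e1 : cnt n (d + 1) = (d + (n + 1)).choose (n + 1) := by
    unfold cnt
    congr 1
    omega
  rcases Nat.eq_or_lt_of_le ht with ht1 | ht2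
  · subst ht1
    rw [one_pow, one_mul] at h
    rw [one_pow, Multiset.replicate_one]
    apply ind_one
    by_contra hcon
    have h1 : (d + 1 + n).choose (n + 1) < (d + 1 + n + 1).choose (n + 1) := by
      rw [Nat.choose_succ_succ' (d + 1 + n) n]
      have := Nat.choose_pos (show n ≤ d + 1 + n by omega)
      omega
    have h2 : (d + 1 + n + 1).choose (n + 1) ≤ (μ + n).choose (n + 1) :=
      Nat.choose_le_choose _ (by omega)
    have h3 : d + 1 + n = d + (n + 1) := by omega
    rw [h3] at h1 h2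
    omega
  rcases Nat.eq_zero_or_pos μ with hμ | hμ
  · subst hμ
    refine ⟨cnt n (d + 1), ?_, by simp [cnt]⟩
    have h2 := emp_of_finrank (E := n + 1) (D := d + 1) (s := cnt n (d + 1))
      (J := Fin (t ^ (n + 1))) (fun _ => 0)
      (fun _ _ => 0) (by
        refine (Submodule.finrank_mono (inf_le_left :
          Vd (d + 1) _ _ ≤ restrictSupport ℂ {a : Fin (n + 1) →₀ ℕ | a.degree < d + 1})).trans ?_
        rw [finrank_restrictSupport, ← card_B n (d + 1), B, Nat.card_coe_set_eq,
          Set.ncard_eq_toFinset_card _ (Finsupp.finite_of_degree_lt (d + 1))])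
    rwa [Multiset.map_const', Finset.card_val, Finset.card_univ, Fintype.card_fin] at h2
  · obtain ⟨P, hP1, hP2⟩ := ((uniform' n t μ d ht2 hμ hc).and forGeneral_zero_coord).exists
    refine ⟨(d + (n + 1)).choose (n + 1) - t ^ (n + 1) * (μ + n).choose (n + 1), ?_, ?_⟩
    · have h2 := emp_of_finrank (E := n + 1) (D := d + 1)
        (s := (d + (n + 1)).choose (n + 1) - t ^ (n + 1) * (μ + n).choose (n + 1))
        (J := Fin (t ^ (n + 1))) (fun _ => μ)
        (fun i (j : Fin (n + 1)) => (P i 0)⁻¹ * P i j.succ) (by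
          rw [← hP1]
          have h3 : Vd (d + 1) (fun _ : Fin (t ^ (n + 1)) => μ)
              (fun i (j : Fin (n + 1)) => (P i 0)⁻¹ * P i j.succ) ≤
              Submodule.map (Elim.dehom n).toLinearMap (forms (n + 2) d (fun _ => μ) P) := by
            intro f hf
            rw [mem_Vd] at hf
            exact ⟨hom d f, hom_mem _ P hP2 hf.1 hf.2, dehom_hom f⟩
          refine (Submodule.finrank_mono h3).trans ?_
          exact Submodule.finrank_map_le _ _)
      rwa [Multiset.map_const', Finset.card_val, Finset.card_univ, Fintype.card_fin] at h2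
    · rw [Multiset.map_replicate, Multiset.sum_replicate, e1, smul_eq_mul]
      unfold cnt
      omega

end Pool.Agent.K7.H43.PW
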