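import Pool.Agent.TH176.FB.J17

/-!
The model: all but `∑ l, s l` of the points are on the curve, and `s l` points have the normal
coordinates of the `l`-th unit vector.
-/

set_option autoImplicit false

namespace Pool.Agent.K7.H43.PW

open MvPolynomial Finset Pool.Agent.TH176.FB Pool.Agent.TH176.FB.J13 Pool.Agent.TH176.FB.J17

/-- Distribution of `r` points to `n + 1` groups. -/
lemma exists_groups {n : ℕ} (s : Fin n → ℕ) (r : ℕ) (hr : ∑ l, s l ≤ r) :
    ∃ g : Fin r → ℕ, ∀ μ : ℕ → ℕ,
      ∑ i, μ (g i) = ∑ l : Fin n, s l * μ l + (r - ∑ l, s l) * μ n := by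
  classical
  have hcard : Fintype.card (Fin r) =
      Fintype.card ((Σ l : Fin n, Fin (s l)) ⊕ Fin (r - ∑ l, s l)) := by
    simp only [Fintype.card_fin, Fintype.card_sum, Fintype.card_sigma]
    omega
  let e := Fintype.equivOfCardEq hcard
  refine ⟨fun i => Sum.elim (fun x => (x.1 : ℕ)) (fun _ => n) (e i), fun μ => ?_⟩
  rw [Equiv.sum_comp e (fun x => μ (Sum.elim (fun x => (x.1 : ℕ)) (fun _ => n) x)),
    Fintype.sum_sum_type, Fintype.sum_sigma]
  simp

lemma degree_update {n : ℕ} (γ : Fin n →₀ ℕ) (l : Fin n) (x : ℕ) :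
    (γ.update l x).degree + γ l = γ.degree + x := by
  classical
  rw [Finsupp.degree_eq_sum, Finsupp.degree_eq_sum,
    ← Finset.add_sum_erase Finset.univ (fun i => (γ.update l x) i) (Finset.mem_univ l),
    ← Finset.add_sum_erase Finset.univ (fun i => γ i) (Finset.mem_univ l)]
  have h : ∑ i ∈ Finset.univ.erase l, (γ.update l x) i = ∑ i ∈ Finset.univ.erase l, γ i := by
    refine Finset.sum_congr rfl fun i hi => ?_
    rw [Finsupp.update_apply, if_neg (Finset.mem_erase.1 hi).1]
  rw [h, Finsupp.update_apply, if_pos rfl]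
  omega

lemma le_degree {n : ℕ} (γ : Fin n →₀ ℕ) (l : Fin n) : γ l ≤ γ.degree := by
  rw [Finsupp.degree_eq_sum]
  exact Finset.single_le_sum (f := fun l => γ l) (fun _ _ => Nat.zero_le _) (Finset.mem_univ l)

theorem model {n t m c r : ℕ} (s : Fin n → ℕ) (ht : 1 ≤ t) (hc : c < t)
    (hr : t ^ (n + 1) ≤ r) (hs : Hc n t (t + c) + ∑ l, s l ≤ t ^ (n + 1))
    (A : Finset (Fin (n + 1) →₀ ℕ))
    (hA : ∀ (γ : Fin n →₀ ℕ) (B : Finset (Fin (n + 1) →₀ ℕ)), γ.degree = m →
      (∀ α ∈ B, be t α = γ ∧ α.degree ≤ t * m + c ∧ α ∉ A) → B.card ≤ ∑ l, s l * γ l) :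
    ∃ P : Fin r → Fin (n + 1) → ℝ,
      ∀ G : MvPolynomial (Fin (n + 1)) ℝ, G.totalDegree ≤ t * m + c → (∀ α ∈ A, coeff α G = 0) →
        (∀ i, ∀ a : Fin (n + 1) →₀ ℕ, a.degree < m → coeff a (shift (P i) (Th t G)) = 0) →
        G = 0 := by
  classical
  obtain ⟨g, hg⟩ := exists_groups s r (by omega)
  have hinj : Function.Injective fun i : Fin r => ((i : ℕ) : ℝ) + 1 := by
    intro i i' h
    have h1 : ((i : ℕ) : ℝ) = ((i' : ℕ) : ℝ) := by simpa using h
    exact Fin.ext (by exact_mod_cast h1)
  refine ⟨fun i => Fin.cons (((i : ℕ) : ℝ) + 1) (pt n (g i)), fun G hG hGA h => ?_⟩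
  have hdeg : ∀ α ∈ G.support, α.degree ≤ t * m + c := fun α hα =>
    (le_totalDegree' hα).trans hG
  have hbe : ∀ α ∈ G.support, (be t α).degree ≤ m := by
    intro α hα
    have h1 : t * (be t α).degree ≤ t * m + c := (t_be_le α).trans (hdeg α hα)
    by_contra h2
    have h3 : t * (m + 1) ≤ t * (be t α).degree := Nat.mul_le_mul_left _ (by omega)
    rw [Nat.mul_succ] at h3
    omega
  -- the conditions
  have hcond : ∀ (i : Fin r) (a0 : ℕ) (γ : Fin n →₀ ℕ), a0 + γ.degree < m →
      ∑ α ∈ G.support, coeff α G * ((((ex t α 0).choose a0 : ℝ) *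
        (((i : ℕ) : ℝ) + 1) ^ (ex t α 0 - a0)) *
        ∏ l, (((be t α l).choose (γ l) : ℝ) * (pt n (g i) l) ^ (be t α l - γ l))) = 0 := by
    intro i a0 γ ha
    have h1 := h i (Finsupp.cons a0 γ) (by rw [degree_cons]; exact ha)
    rw [shift_Th] at h1
    rw [← h1]
    refine Finset.sum_congr rfl fun α _ => ?_
    rw [Fin.prod_univ_succ]
    simp only [Finsupp.cons_zero, Finsupp.cons_succ, Fin.cons_zero, Fin.cons_succ,
      ex_succ, be_apply]
  -- the coefficient of `s ^ γ` is zero if it has many zeros
  have kill : ∀ (γ : Fin n →₀ ℕ) (x : ℕ → ℕ),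
      (∀ i : Fin r, ∀ a < x (g i), Tc t G γ a (((i : ℕ) : ℝ) + 1) = 0) →
      (G.support.filter fun α => be t α = γ).card ≤
        ∑ l : Fin n, s l * x l + (r - ∑ l, s l) * x n →
      ∀ α ∈ G.support, be t α ≠ γ := by
    intro γ x hx hcard α hα hαγ
    have h1 := few' (G.support.filter fun α => be t α = γ) (fun α => ex t α 0)
      (fun α hα β hβ he => by
        apply ex_inj ht
        ext l
        refine Fin.cases he (fun i => ?_) l
        have h1 := DFunLike.congr_fun (((Finset.mem_filter.1 hα).2).trans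
          (Finset.mem_filter.1 hβ).2.symm) i
        rw [be_apply, be_apply] at h1
        rw [ex_succ, ex_succ, h1])
      (fun α => coeff α G) (fun i : Fin r => ((i : ℕ) : ℝ) + 1) hinj
      (fun i => by positivity) (fun i => x (g i)) (fun i a ha => ?_) ?_
      α (Finset.mem_filter.2 ⟨hα, hαγ⟩)
    · exact mem_support_iff.1 hα h1
    · have h2 := hx i a ha
      unfold Tc at h2
      exact h2
    · rw [hg]
      exact hcard
  have hcount : ∀ γ : Fin n →₀ ℕ, (G.support.filter fun α => be t α = γ).card ≤
      Hc n t (t * m + c - t * γ.degree) := fun γ =>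
    card_fibre ht γ _ (fun α hα => (Finset.mem_filter.1 hα).2)
      (fun α hα => hdeg α (Finset.mem_filter.1 hα).1)
  have hKm : ∀ γ : Fin n →₀ ℕ, γ.degree ≤ m → ∀ l, γ l < t * m + c + 1 := by
    intro γ h1 l
    have h2 := le_degree γ l
    have h3 : m ≤ t * m := Nat.le_mul_of_pos_left _ ht
    omega
  -- the conditions at the points outside of the curve
  have off : ∀ (l : Fin n) (i : Fin r), g i = l → ∀ (γ : Fin n →₀ ℕ) (a : ℕ),
      a + γ.degree < m → ∑ x ∈ Finset.range (t * m + c + 1),
        Tc t G (γ.update l x) a (((i : ℕ) : ℝ) + 1) *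
        (((x.choose (γ l) : ℕ) : ℝ) * (1 : ℝ) ^ (x - γ l)) = 0 := by
    intro l i hi γ a ha
    have h1 := hcond i a γ ha
    rw [hi] at h1
    exact cond_off l (t * m + c + 1) (fun α hα => hKm _ (hbe α hα) l) h1
  have big : ∀ γ : Fin n →₀ ℕ, m < γ.degree → ∀ α ∈ G.support, be t α ≠ γ := by
    intro γ hγ α hα hα2
    have := hbe α hα
    rw [hα2] at this
    omega
  have main : ∀ q, q ≤ m →
      (∀ γ : Fin n →₀ ℕ, γ.degree < m → m ≤ γ.degree + q → ∀ α ∈ G.support, be t α ≠ γ) ∧
      (∀ γ : Fin n →₀ ℕ, γ.degree = m → ∀ (l : Fin n) (i : Fin r), g i = l → ∀ a, a < γ l →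
        a < q → Tc t G γ a (((i : ℕ) : ℝ) + 1) = 0) := by
    intro q
    induction q with
    | zero =>
      intro _
      exact ⟨fun γ h1 h2 => by omega, fun γ _ l i _ a _ h => by omega⟩
    | succ q ih =>
      intro hq
      obtain ⟨ih1, ih2⟩ := ih (by omega)
      have first : ∀ γ : Fin n →₀ ℕ, γ.degree < m → m ≤ γ.degree + (q + 1) →
          ∀ α ∈ G.support, be t α ≠ γ := by
        intro γ h1 h2
        rcases Nat.lt_or_ge (γ.degree + q) m with h3 | h3
        swap
        · exact ih1 γ h1 h3
        refine kill γ (fun j => if j = n then q + 1 else q) (fun i a ha => ?_) ?_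
        · by_cases hgi : n ≤ g i
          · have ha' : a < q + 1 := by
              split_ifs at ha <;> omega
            exact cond_curve hgi (hcond i a γ (by omega))
          · have hgi2 : g i < n := by omega
            rw [if_neg (by omega)] at ha
            obtain ⟨l, hl⟩ : ∃ l : Fin n, g i = l := ⟨⟨g i, hgi2⟩, rfl⟩
            have h4 := off l i hl γ a (by omega)
            rw [Finset.sum_eq_single (γ l)] at h4
            · rw [Nat.choose_self, Nat.sub_self, pow_zero, Nat.cast_one, mul_one, mul_one] at h4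
              have h5 : γ.update l (γ l) = γ := Finsupp.update_self γ l
              rwa [h5] at h4
            · intro x _ hx
              rcases Nat.lt_or_gt_of_ne hx with h5 | h5
              · rw [Nat.choose_eq_zero_of_lt h5, Nat.cast_zero, zero_mul, mul_zero]
              · have h6 := degree_update γ l x
                rcases lt_trichotomy (γ.update l x).degree m with h7 | h7 | h7
                · rw [Tc_zero (ih1 _ h7 (by omega)), zero_mul]
                · rw [ih2 _ h7 l i hl a (by rw [Finsupp.update_apply, if_pos rfl]; omega)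
                    (by omega), zero_mul]
                · rw [Tc_zero (big _ h7), zero_mul]
            · intro h5
              exact absurd (Finset.mem_range.2 (hKm γ h1.le l)) h5
        · refine (hcount γ).trans ?_
          have e1 : t * m + c - t * γ.degree = t + c + t * q := by
            have e2 : m = γ.degree + q + 1 := by omega
            rw [e2]
            have e3 : t * (γ.degree + q + 1) = t * γ.degree + t * q + t := by ring
            omega
          have e4 : ∀ l : Fin n, s l * (if (l : ℕ) = n then q + 1 else q) = s l * q := by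
            intro l
            rw [if_neg (by have := l.2; omega)]
          rw [e1, Finset.sum_congr rfl fun l _ => e4 l, ← Finset.sum_mul, if_pos rfl]
          refine (Hc_add_mul n t (t + c) q).trans ?_
          have h5 : t ^ (n + 1) * q ≤ r * q := Nat.mul_le_mul_right _ hr
          obtain ⟨r', hr'⟩ : ∃ r', r = ∑ l, s l + r' := ⟨r - ∑ l, s l, by omega⟩
          have h6 : r - ∑ l, s l = r' := by omega
          rw [h6]
          rw [hr'] at h5
          have h7 : (∑ l, s l + r') * q = (∑ l, s l) * q + r' * q := by ring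
          have h8 : r' * (q + 1) = r' * q + r' := by ring
          omega
      refine ⟨first, ?_⟩
      intro γ hγ l i hl a ha haq
      rcases Nat.lt_or_ge a q with h3 | h3
      · exact ih2 γ hγ l i hl a ha h3
      have haq' : a = q := by omega
      subst haq'
      obtain ⟨γ0, hγ0⟩ : ∃ γ0, γ0 = γ.update l (γ l - (a + 1)) := ⟨_, rfl⟩
      have hγ0l : γ0 l = γ l - (a + 1) := by
        rw [hγ0, Finsupp.update_apply, if_pos rfl]
      have hd0 := degree_update γ l (γ l - (a + 1))
      rw [← hγ0] at hd0
      have h4 := off l i hl γ0 a (by omega)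
      have hup : ∀ x, γ0.update l x = γ.update l x := by
        intro x
        rw [hγ0]
        ext l'
        rw [Finsupp.update_apply, Finsupp.update_apply, Finsupp.update_apply]
        split_ifs <;> rfl
      simp only [hup, hγ0l] at h4
      rw [Finset.sum_eq_single (γ l)] at h4
      · have h5 : γ.update l (γ l) = γ := Finsupp.update_self γ l
        rw [h5, one_pow, mul_one] at h4
        refine (mul_eq_zero.1 h4).resolve_right ?_
        have h6 : 0 < (γ l).choose (γ l - (a + 1)) := Nat.choose_pos (by omega)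
        exact_mod_cast h6.ne'
      · intro x _ hx
        rcases Nat.lt_or_ge x (γ l - (a + 1)) with h5 | h5
        · rw [Nat.choose_eq_zero_of_lt h5, Nat.cast_zero, zero_mul, mul_zero]
        · have h6 := degree_update γ l x
          rcases lt_trichotomy (γ.update l x).degree m with h7 | h7 | h7
          · rw [Tc_zero (first _ h7 (by omega)), zero_mul]
          · omega
          · rw [Tc_zero (big _ h7), zero_mul]
      · intro h5
        exact absurd (Finset.mem_range.2 (hKm γ hγ.le l)) h5
  obtain ⟨m1, m2⟩ := main m le_rfl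
  by_contra hG0
  obtain ⟨α, hα⟩ := support_nonempty.2 hG0
  rcases Nat.lt_or_ge (be t α).degree m with h1 | h1
  · exact m1 _ h1 (by omega) α hα rfl
  have hγ : (be t α).degree = m := le_antisymm (hbe α hα) h1
  refine kill (be t α) (fun j => if h : j < n then be t α ⟨j, h⟩ else 0) (fun i a ha => ?_) ?_ α hα
    rfl
  · by_cases hgi : g i < n
    · rw [dif_pos hgi] at ha
      have h2 := le_degree (be t α) ⟨g i, hgi⟩
      exact m2 _ hγ ⟨g i, hgi⟩ i rfl a ha (by omega)
    · rw [dif_neg hgi] at ha
      omega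
  · refine (hA (be t α) _ hγ fun β hβ => ?_).trans ?_
    · rw [Finset.mem_filter] at hβ
      exact ⟨hβ.2, hdeg β hβ.1, fun h5 => mem_support_iff.1 hβ.1 (hGA β h5)⟩
    · refine le_trans (le_of_eq ?_) (Nat.le_add_right _ _)
      refine Finset.sum_congr rfl fun l _ => ?_
      rw [dif_pos l.2]

end Pool.Agent.K7.H43.PW
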