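import Pool.Agent.K7.H43.PW.Lim
import Pool.Agent.K7.H43.PW.Mod
import Pool.Agent.TH176.FB.Fat

/-!
From the model to forms over the complex numbers at general points: bounds for the dimension.
-/

set_option autoImplicit false

namespace Pool.Agent.K7.H43.PW

open MvPolynomial Finset Pool.Agent.H938R2 Pool.Agent.TH176.FB Pool.Agent.TH176.FB.Fat

lemma re_add {n : ℕ} (F G : MvPolynomial (Fin n) ℂ) : re (F + G) = re F + re G := by
  ext α
  rw [coeff_add, coeff_re, coeff_re, coeff_re, coeff_add, Complex.add_re]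

lemma im_add {n : ℕ} (F G : MvPolynomial (Fin n) ℂ) : im (F + G) = im F + im G := by
  ext α
  rw [coeff_add, coeff_im, coeff_im, coeff_im, coeff_add, Complex.add_im]

lemma re_smul {n : ℕ} (c : ℂ) (F : MvPolynomial (Fin n) ℂ) :
    re (c • F) = c.re • re F - c.im • im F := by
  ext α
  rw [coeff_sub, coeff_smul, coeff_smul, coeff_re, coeff_re, coeff_im, coeff_smul, smul_eq_mul,
    smul_eq_mul, smul_eq_mul, Complex.mul_re]

lemma im_smul {n : ℕ} (c : ℂ) (F : MvPolynomial (Fin n) ℂ) :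
    im (c • F) = c.re • im F + c.im • re F := by
  ext α
  rw [coeff_add, coeff_smul, coeff_smul, coeff_im, coeff_re, coeff_im, coeff_smul, smul_eq_mul,
    smul_eq_mul, smul_eq_mul, Complex.mul_im]

/-- The complexification of a linear map. -/
noncomputable def cpx {n : ℕ} {A : Type} (Φ : MvPolynomial (Fin n) ℝ →ₗ[ℝ] (A → ℝ)) :
    MvPolynomial (Fin n) ℂ →ₗ[ℂ] (A → ℂ) where
  toFun F a := ⟨Φ (re F) a, Φ (im F) a⟩
  map_add' F G := by
    funext a
    apply Complex.ext
    · simp [re_add]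
    · simp [im_add]
  map_smul' c F := by
    funext a
    apply Complex.ext
    · simp [re_smul]
    · simp [im_smul]

lemma general_le {n r k m : ℕ} {A : Type} [Fintype A] (hm : 1 ≤ m)
    (p : Fin r → Fin (n + 1) → ℝ) (Φ : MvPolynomial (Fin (n + 1)) ℝ →ₗ[ℝ] (A → ℝ))
    (h : ∀ F : MvPolynomial (Fin (n + 1)) ℝ, F.totalDegree ≤ k → Φ F = 0 →
      (∀ i, ∀ a : Fin (n + 1) →₀ ℕ, a.degree ≤ m - 1 → coeff a (shift (p i) F) = 0) → F = 0) :
    ForGeneral (n + 2) r (fun p =>
      Module.finrank ℂ (forms (n + 2) k (fun _ => m) p) ≤ Fintype.card A) := by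
  apply forms_semicontinuous (n := n + 2) (d := k) (m := fun _ : Fin r => m)
    (fun i => Fin.cons 1 (fun j => ((p i j : ℝ) : ℂ))) (Fintype.card A)
  let Ψ : forms (n + 2) k (fun _ : Fin r => m)
      (fun i => (Fin.cons 1 (fun j => ((p i j : ℝ) : ℂ)) : Fin (n + 2) → ℂ)) →ₗ[ℂ] (A → ℂ) :=
    (cpx Φ) ∘ₗ (Elim.dehom n).toLinearMap ∘ₗ Submodule.subtype _
  have hΨ : Function.Injective Ψ := by
    rw [← LinearMap.ker_eq_bot, LinearMap.ker_eq_bot']
    rintro ⟨F, hF⟩ hF0
    have hF1 : cpx Φ (Elim.dehom n F) = 0 := hF0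
    have hr : Φ (re (Elim.dehom n F)) = 0 := by
      funext a
      have := congrArg Complex.re (congrFun hF1 a)
      simpa [cpx] using this
    have hi : Φ (im (Elim.dehom n F)) = 0 := by
      funext a
      have := congrArg Complex.im (congrFun hF1 a)
      simpa [cpx] using this
    have hv : ∀ i, ∀ a : Fin (n + 1) →₀ ℕ, a.degree ≤ m - 1 →
        coeff a (shift (fun j => ((p i j : ℝ) : ℂ)) (Elim.dehom n F)) = 0 := fun i a ha =>
      Elim.vanishes_dehom (hF.2 i) a (by show a.degree < m; omega)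
    have hd : (Elim.dehom n F).totalDegree ≤ k := totalDegree_dehom hF.1
    have h1 := h (re (Elim.dehom n F)) ((totalDegree_re _).trans hd) hr fun i a ha => by
      rw [shift_re, hv i a ha, Complex.zero_re]
    have h2 := h (im (Elim.dehom n F)) ((totalDegree_im _).trans hd) hi fun i a ha => by
      rw [shift_im, hv i a ha, Complex.zero_im]
    have h3 : Elim.dehom n F = 0 := by
      ext α
      rw [coeff_zero]
      apply Complex.ext
      · rw [← coeff_re, h1, coeff_zero, Complex.zero_re]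
      · rw [← coeff_im, h2, coeff_zero, Complex.zero_im]
    apply Subtype.ext
    show F = 0
    ext β
    rw [coeff_zero]
    by_cases hβ : β.degree = k
    · rw [← Elim.coeff_dehom hF.1 β hβ, h3, coeff_zero]
    · by_contra hne
      exact hβ ((isHomogeneous_iff F).mp hF.1 β (mem_support_iff.mpr hne))
  have h9 := LinearMap.finrank_le_finrank_of_injective hΨ
  rwa [Module.finrank_fintype_fun_eq_card] at h9

/-- The bound for the dimension in the window. -/
theorem core_le {n t m c : ℕ} (s : Fin n → ℕ) (ht : 1 ≤ t) (hc : c < t) (hm : 1 ≤ m)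
    (hs : Hc n t (t + c) + ∑ l, s l ≤ t ^ (n + 1))
    (A : Finset (Fin (n + 1) →₀ ℕ)) (hAd : ∀ α ∈ A, α.degree ≤ t * m + c)
    (hA : ∀ (γ : Fin n →₀ ℕ) (B : Finset (Fin (n + 1) →₀ ℕ)), γ.degree = m →
      (∀ α ∈ B, J13.be t α = γ ∧ α.degree ≤ t * m + c ∧ α ∉ A) → B.card ≤ ∑ l, s l * γ l) :
    ForGeneral (n + 2) (t ^ (n + 1)) (fun p =>
      Module.finrank ℂ (forms (n + 2) (t * m + c) (fun _ => m) p) ≤ A.card) := by
  obtain ⟨P, hP⟩ := model (r := t ^ (n + 1)) s ht hc le_rfl hs A hA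
  obtain ⟨p, Φ, hΦ⟩ := limitD t (t * m + c) (m - 1) ht P A hAd
    (fun G hG hGA h => hP G hG hGA fun i a ha => h i a (by omega))
  have h1 := general_le hm p Φ hΦ
  rwa [Fintype.card_coe] at h1

/-- Emptiness in the window. -/
theorem core_zero {n t m c : ℕ} (s : Fin n → ℕ) (ht : 1 ≤ t) (hc : c < t) (hm : 1 ≤ m)
    (hs : Hc n t (t + c) + ∑ l, s l ≤ t ^ (n + 1))
    (hN : ∀ l, Hc n t c ≤ m * s l) :
    ForGeneral (n + 2) (t ^ (n + 1)) (fun p =>
      Module.finrank ℂ (forms (n + 2) (t * m + c) (fun _ => m) p) = 0) := by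
  refine (core_le s ht hc hm hs ∅ (by simp) fun γ B hγ hB => ?_).mono fun p hp => ?_
  · have h1 := J17.card_fibre (k := t * m + c) ht γ B (fun α hα => (hB α hα).1)
      (fun α hα => (hB α hα).2.1)
    rw [hγ, Nat.add_sub_cancel_left] at h1
    refine h1.trans ?_
    -- the weighted mean
    have h2 : m * Hc n t c ≤ m * ∑ l, s l * γ l := by
      rw [Finsupp.degree_eq_sum] at hγ
      calc m * Hc n t c = ∑ l, γ l * Hc n t c := by rw [← Finset.sum_mul, hγ]
        _ ≤ ∑ l, γ l * (m * s l) := Finset.sum_le_sum fun l _ => Nat.mul_le_mul_left _ (hN l)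
        _ = m * ∑ l, s l * γ l := by
          rw [Finset.mul_sum]
          exact Finset.sum_congr rfl fun l _ => by ring
    exact Nat.le_of_mul_le_mul_left h2 hm
  · rw [Finset.card_empty] at hp
    omega

end Pool.Agent.K7.H43.PW
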