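import Pool.Agent.TH176.FB.J24

/-!
The Hilbert function of the complete intersection curve in small degrees, and numerical facts.
-/

set_option autoImplicit false

namespace Pool.Agent.K7.H43.PW

open Finset Pool.Agent.TH176.FB

/-- The Hilbert function with a shifted argument. -/
def Hh (n t L : ℕ) : ℕ := ∑ d : Fin n → Fin t, (L - ∑ i, (d i : ℕ))

lemma Hc_eq (n t l : ℕ) : Hc n t l = Hh n t (l + 1) := rfl

lemma Hh_zero (t L : ℕ) : Hh 0 t L = L := by
  unfold Hh
  simp

lemma Hh_succ (n t L : ℕ) : Hh (n + 1) t L = ∑ x ∈ range t, Hh n t (L - x) := by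
  unfold Hh
  rw [← Fin.sum_univ_eq_sum_range (fun x => ∑ d : Fin n → Fin t, (L - x - ∑ i, (d i : ℕ))) t,
    ← Equiv.sum_comp (Fin.consEquiv fun _ : Fin (n + 1) => Fin t), Fintype.sum_prod_type]
  refine Finset.sum_congr rfl fun x _ => Finset.sum_congr rfl fun d _ => ?_
  have h1 : ∑ i, (((Fin.consEquiv fun _ : Fin (n + 1) => Fin t) (x, d) i : Fin t) : ℕ) =
      (x : ℕ) + ∑ i, (d i : ℕ) := by
    rw [Fin.sum_univ_succ]
    rfl
  rw [h1, Nat.sub_sub]

lemma hock1 (n : ℕ) : ∀ k L : ℕ, ∑ x ∈ range k, (L - x + n).choose (n + 1) ≤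
    (L + n + 1).choose (n + 2) := by
  intro k
  induction k with
  | zero => intro L; simp
  | succ k ih =>
    intro L
    rw [Finset.sum_range_succ']
    rcases Nat.eq_zero_or_pos L with h | h
    · subst h
      simp
    · obtain ⟨L', rfl⟩ : ∃ L', L = L' + 1 := ⟨L - 1, by omega⟩
      have h1 : ∀ x ∈ range k, (L' + 1 - (x + 1) + n).choose (n + 1) =
          (L' - x + n).choose (n + 1) := by
        intro x _
        rw [Nat.add_sub_add_right]
      rw [Finset.sum_congr rfl h1, Nat.sub_zero]
      have h2 := ih L'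
      have h3 : (L' + 1 + n + 1).choose (n + 2) =
          (L' + 1 + n).choose (n + 1) + (L' + 1 + n).choose (n + 2) :=
        Nat.choose_succ_succ' _ _
      have h4 : L' + n + 1 = L' + 1 + n := by omega
      rw [h4] at h2
      omega

lemma hock2 (n : ℕ) : ∀ k L : ℕ, L ≤ k → (L + n + 1).choose (n + 2) ≤
    ∑ x ∈ range k, (L - x + n).choose (n + 1) := by
  intro k
  induction k with
  | zero =>
    intro L hL
    have h : L = 0 := by omega
    subst h
    simp
  | succ k ih =>
    intro L hL
    rw [Finset.sum_range_succ']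
    rcases Nat.eq_zero_or_pos L with h | h
    · subst h
      simp
    · obtain ⟨L', rfl⟩ : ∃ L', L = L' + 1 := ⟨L - 1, by omega⟩
      have h1 : ∀ x ∈ range k, (L' + 1 - (x + 1) + n).choose (n + 1) =
          (L' - x + n).choose (n + 1) := by
        intro x _
        rw [Nat.add_sub_add_right]
      rw [Finset.sum_congr rfl h1, Nat.sub_zero]
      have h2 := ih L' (by omega)
      have h3 : (L' + 1 + n + 1).choose (n + 2) =
          (L' + 1 + n).choose (n + 1) + (L' + 1 + n).choose (n + 2) :=
        Nat.choose_succ_succ' _ _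
      have h4 : L' + n + 1 = L' + 1 + n := by omega
      rw [h4] at h2
      omega

lemma hock3 (n M : ℕ) : ∀ k : ℕ, ∑ x ∈ range k, (k + M - x + n).choose (n + 1) +
    (M + n + 1).choose (n + 2) = (k + M + n + 1).choose (n + 2) := by
  intro k
  induction k with
  | zero => simp
  | succ k ih =>
    rw [Finset.sum_range_succ']
    have h1 : ∀ x ∈ range k, (k + 1 + M - (x + 1) + n).choose (n + 1) =
        (k + M - x + n).choose (n + 1) := by
      intro x _
      congr 1
      omega
    rw [Finset.sum_congr rfl h1, Nat.sub_zero]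
    have h3 : (k + 1 + M + n + 1).choose (n + 2) =
        (k + 1 + M + n).choose (n + 1) + (k + 1 + M + n).choose (n + 2) :=
      Nat.choose_succ_succ' _ _
    have h4 : k + M + n + 1 = k + 1 + M + n := by omega
    rw [h4] at ih
    omega

lemma Hh_le (t : ℕ) : ∀ n L : ℕ, Hh n t L ≤ (L + n).choose (n + 1) := by
  intro n
  induction n with
  | zero => intro L; rw [Hh_zero]; simp
  | succ n ih =>
    intro L
    rw [Hh_succ]
    exact (Finset.sum_le_sum fun x _ => ih (L - x)).trans (hock1 n t L)

lemma Hh_window (t : ℕ) : ∀ n M : ℕ, M ≤ t →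
    Hh n t (t + M) + n * (M + n).choose (n + 1) ≤ (t + M + n).choose (n + 1) := by
  intro n
  induction n with
  | zero => intro M _; rw [Hh_zero]; simp
  | succ n ih =>
    intro M hM
    rw [Hh_succ]
    have key : ∀ x ∈ range t, Hh n t (t + M - x) + n * (M - x + n).choose (n + 1) ≤
        (t + M - x + n).choose (n + 1) := by
      intro x hx
      rw [Finset.mem_range] at hx
      rcases Nat.lt_or_ge x M with h | h
      · have h1 := ih (M - x) (by omega)
        have h2 : t + (M - x) = t + M - x := by omega
        rwa [h2] at h1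
      · have h1 := Hh_le t n (t + M - x)
        have h2 : M - x = 0 := by omega
        rw [h2, zero_add, Nat.choose_succ_self, mul_zero]
        exact h1
    have h1 := Finset.sum_le_sum key
    rw [Finset.sum_add_distrib, ← Finset.mul_sum] at h1
    have h2 := hock2 n t M hM
    have h3 := hock3 n M t
    have h4 := Nat.mul_le_mul_left n h2
    have e1 : M + (n + 1) = M + n + 1 := by ring
    have e2 : t + M + (n + 1) = t + M + n + 1 := by ring
    have e3 : n + 1 + 1 = n + 2 := by ring
    rw [e1, e2, e3]
    have e4 : (n + 1) * (M + n + 1).choose (n + 2) =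
      n * (M + n + 1).choose (n + 2) + (M + n + 1).choose (n + 2) := by ring
    omega

/-- The Hilbert function of the complete intersection curve in degree `t + c`, `c < t`. -/
lemma Hc_window {n t c : ℕ} (hc : c < t) :
    Hc n t (t + c) + n * (c + (n + 1)).choose (n + 1) ≤ (t + c + (n + 1)).choose (n + 1) := by
  have h1 := Hh_window t n (c + 1) hc
  have e1 : c + 1 + n = c + (n + 1) := by ring
  have e2 : t + (c + 1) + n = t + c + (n + 1) := by ring
  rw [e1, e2] at h1
  exact h1

lemma Hc_le_choose (n t c : ℕ) : Hc n t c ≤ (c + (n + 1)).choose (n + 1) := by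
  have h1 := Hh_le t n (c + 1)
  have e1 : c + 1 + n = c + (n + 1) := by ring
  rwa [e1] at h1

lemma six_choose (x : ℕ) : 6 * (x + 2).choose 3 = (x + 2) * (x + 1) * x := by
  induction x with
  | zero => rfl
  | succ x ih =>
    have h1 : (x + 1 + 2).choose 3 = (x + 2).choose 2 + (x + 2).choose 3 :=
      Nat.choose_succ_succ' (x + 2) 2
    have h2 : 2 * (x + 2).choose 2 = (x + 2) * (x + 1) := by
      rw [Nat.choose_two_right, Nat.mul_div_cancel']
      · rfl
      · exact (Nat.even_mul_pred_self (x + 2)).two_dvd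
    rw [h1, Nat.mul_add, ih]
    nlinarith [h2]

end Pool.Agent.K7.H43.PW
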