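import Pool.Agent.TH176.FB.J14
import Pool.Agent.TH176.FB.J13

/-!
From the model of the degeneration to the affine space: the limit argument for dimensions.
-/

set_option autoImplicit false

namespace Pool.Agent.K7.H43.PW

open MvPolynomial Pool.Agent.TH176.FB Pool.Agent.TH176.FB.J14

theorem limitD {n r : ℕ} (t k e : ℕ) (ht : 1 ≤ t) (P : Fin r → Fin (n + 1) → ℝ)
    (A : Finset (Fin (n + 1) →₀ ℕ)) (hA : ∀ α ∈ A, α.degree ≤ k)
    (h : ∀ G : MvPolynomial (Fin (n + 1)) ℝ, G.totalDegree ≤ k → (∀ α ∈ A, coeff α G = 0) →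
      (∀ i, ∀ a : Fin (n + 1) →₀ ℕ, a.degree ≤ e → coeff a (shift (P i) (Th t G)) = 0) → G = 0) :
    ∃ (p : Fin r → Fin (n + 1) → ℝ) (Φ : MvPolynomial (Fin (n + 1)) ℝ →ₗ[ℝ] (A → ℝ)),
      ∀ F : MvPolynomial (Fin (n + 1)) ℝ, F.totalDegree ≤ k → Φ F = 0 →
        (∀ i, ∀ a : Fin (n + 1) →₀ ℕ, a.degree ≤ e → coeff a (shift (p i) F) = 0) → F = 0 := by
  classical
  let ι : Type := {α : Fin (n + 1) →₀ ℕ // α.degree ≤ k}
  let κ : Type := Fin r × {a : Fin (n + 1) →₀ ℕ // a.degree ≤ e}
  have f1 : Finite ι := (Finsupp.finite_of_degree_le k).to_subtype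
  have f2 : Finite {a : Fin (n + 1) →₀ ℕ // a.degree ≤ e} :=
    (Finsupp.finite_of_degree_le e).to_subtype
  let g1 : Fintype ι := Fintype.ofFinite ι
  let g2 : Fintype {a : Fin (n + 1) →₀ ℕ // a.degree ≤ e} := Fintype.ofFinite _
  let M0 : Matrix κ ι (Polynomial ℝ) := fun q α =>
    coeff q.2.1 (sh (fun j => Polynomial.C (P q.1 j)) (bb t (Polynomial.X : Polynomial ℝ) α.1))
  let M : Matrix (κ ⊕ A) ι (Polynomial ℝ) := fun q α =>
    Sum.elim (fun q => M0 q α) (fun β => if β.1 = α.1 then (1 : Polynomial ℝ) else 0) q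
  -- the value of the matrix
  have hM : ∀ (ε : ℝ) (c : ι → ℝ) (q : κ), (M.map (Polynomial.eval ε)).mulVec c (Sum.inl q) =
      coeff q.2.1 (shift (P q.1) (∑ α : ι, c α • bb t ε α.1)) := by
    intro ε c q
    rw [map_sum, coeff_sum]
    unfold Matrix.mulVec dotProduct
    refine Finset.sum_congr rfl fun α _ => ?_
    rw [map_smul, coeff_smul, smul_eq_mul]
    show Polynomial.eval ε (M0 q α) * c α = c α * _
    rw [mul_comm]
    congr 1
    have h1 := coeff_sh_bb (Polynomial.evalRingHom ε) t (Polynomial.X : Polynomial ℝ) α.1 q.2.1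
      (fun j => Polynomial.C (P q.1 j))
    simp only [Polynomial.coe_evalRingHom, Polynomial.eval_X, Polynomial.eval_C] at h1
    exact h1
  have hM2 : ∀ (ε : ℝ) (c : ι → ℝ) (β : A), (M.map (Polynomial.eval ε)).mulVec c (Sum.inr β) =
      c ⟨β.1, hA β.1 β.2⟩ := by
    intro ε c β
    unfold Matrix.mulVec dotProduct
    rw [Finset.sum_eq_single (⟨β.1, hA β.1 β.2⟩ : ι)]
    · show Polynomial.eval ε (if β.1 = β.1 then (1 : Polynomial ℝ) else 0) * _ = _
      rw [if_pos rfl, Polynomial.eval_one, one_mul]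
    · intro α _ hα
      show Polynomial.eval ε (if β.1 = α.1 then (1 : Polynomial ℝ) else 0) * _ = _
      rw [if_neg, Polynomial.eval_zero, zero_mul]
      exact fun h5 => hα (Subtype.ext h5.symm)
    · intro h5
      exact absurd (Finset.mem_univ _) h5
  -- sums over the index set
  have hsup : ∀ c : ι → ℝ, ∀ β : Fin (n + 1) →₀ ℕ, ∀ hβ : β.degree ≤ k,
      coeff β (∑ α : ι, monomial α.1 (c α)) = c ⟨β, hβ⟩ := by
    intro c β hβ
    rw [coeff_sum, Finset.sum_eq_single (⟨β, hβ⟩ : ι)]
    · rw [coeff_monomial, if_pos rfl]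
    · intro α _ hα
      rw [coeff_monomial, if_neg]
      exact fun h5 => hα (Subtype.ext h5)
    · exact fun h5 => absurd (Finset.mem_univ _) h5
  have hinj0 : ∀ c : ι → ℝ, (M.map (Polynomial.eval 0)).mulVec c = 0 → c = 0 := by
    intro c hc
    have h1 : Th t (∑ α : ι, monomial α.1 (c α)) = ∑ α : ι, c α • bb t (0 : ℝ) α.1 := by
      rw [map_sum]
      refine Finset.sum_congr rfl fun α _ => ?_
      rw [Th_monomial, bb_zero, smul_monomial, smul_eq_mul, mul_one]
    have h2 : (∑ α : ι, monomial α.1 (c α) : MvPolynomial (Fin (n + 1)) ℝ) = 0 := by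
      apply h
      · refine totalDegree_finsetSum_le fun α _ => ?_
        refine (totalDegree_monomial_le _ _).trans ?_
        exact α.2
      · intro β hβ
        rw [hsup c β (hA β hβ), ← hM2 0 c ⟨β, hβ⟩, hc]
        rfl
      · intro i a ha
        rw [h1, ← hM 0 c (i, ⟨a, ha⟩), hc]
        rfl
    funext α
    have h3 := hsup c α.1 α.2
    rw [h2, coeff_zero] at h3
    exact h3.symm
  -- a second matrix, for the linear independence of the deformed monomials
  let N : Matrix ι ι (Polynomial ℝ) := fun β α =>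
    coeff (ex t β.1) (bb t (Polynomial.X : Polynomial ℝ) α.1)
  have hN : ∀ (ε : ℝ) (c : ι → ℝ) (β : ι), (N.map (Polynomial.eval ε)).mulVec c β =
      coeff (ex t β.1) (∑ α : ι, c α • bb t ε α.1) := by
    intro ε c β
    rw [coeff_sum]
    unfold Matrix.mulVec dotProduct
    refine Finset.sum_congr rfl fun α _ => ?_
    rw [coeff_smul, smul_eq_mul]
    show Polynomial.eval ε (N β α) * c α = c α * _
    rw [mul_comm]
    congr 1
    show Polynomial.evalRingHom ε (coeff (ex t β.1) (bb t (Polynomial.X : Polynomial ℝ) α.1)) = _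
    rw [← coeff_map, map_bb, Polynomial.coe_evalRingHom, Polynomial.eval_X]
  have hinjN : ∀ c : ι → ℝ, (N.map (Polynomial.eval 0)).mulVec c = 0 → c = 0 := by
    intro c hc
    funext β
    have h1 := congrFun hc β
    rw [hN, coeff_sum, Finset.sum_eq_single β] at h1
    · rw [coeff_smul, bb_zero, coeff_monomial, if_pos rfl, smul_eq_mul, mul_one] at h1
      exact h1
    · intro α _ hα
      rw [coeff_smul, bb_zero, coeff_monomial, if_neg, smul_zero]
      exact fun h5 => hα (Subtype.ext (J13.ex_inj ht h5))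
    · intro h5
      exact absurd (Finset.mem_univ _) h5
  obtain ⟨ε, hε, hinj'⟩ := inj_near (Matrix.fromBlocks M 0 0 N) (by
    intro c hc
    have e1 : (Matrix.fromBlocks M 0 0 N).map (Polynomial.eval (0 : ℝ)) =
        Matrix.fromBlocks (M.map (Polynomial.eval 0)) 0 0 (N.map (Polynomial.eval 0)) := by
      rw [Matrix.fromBlocks_map]
      congr 1 <;> · ext; simp
    rw [e1, Matrix.fromBlocks_mulVec] at hc
    have h1 := hinj0 (c ∘ Sum.inl) (by
      funext q
      have := congrFun hc (Sum.inl q)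
      simpa using this)
    have h2 := hinjN (c ∘ Sum.inr) (by
      funext q
      have := congrFun hc (Sum.inr q)
      simpa using this)
    funext x
    rcases x with x | x
    · exact congrFun h1 x
    · exact congrFun h2 x)
  have e1 : (Matrix.fromBlocks M 0 0 N).map (Polynomial.eval (ε : ℝ)) =
      Matrix.fromBlocks (M.map (Polynomial.eval ε)) 0 0 (N.map (Polynomial.eval ε)) := by
    rw [Matrix.fromBlocks_map]
    congr 1 <;> · ext; simp
  have hinj : ∀ c : ι → ℝ, (M.map (Polynomial.eval ε)).mulVec c = 0 → c = 0 := by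
    intro c hc
    have h1 := hinj' (Sum.elim c 0) (by
      rw [e1, Matrix.fromBlocks_mulVec]
      funext x
      rcases x with x | x
      · simp [Sum.elim_comp_inl, Sum.elim_comp_inr, hc]
      · simp [Sum.elim_comp_inl, Sum.elim_comp_inr])
    funext x
    exact congrFun h1 (Sum.inl x)
  have hinj2 : ∀ c : ι → ℝ, (N.map (Polynomial.eval ε)).mulVec c = 0 → c = 0 := by
    intro c hc
    have h1 := hinj' (Sum.elim 0 c) (by
      rw [e1, Matrix.fromBlocks_mulVec]
      funext x
      rcases x with x | x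
      · simp [Sum.elim_comp_inl, Sum.elim_comp_inr]
      · simp [Sum.elim_comp_inl, Sum.elim_comp_inr, hc])
    funext x
    exact congrFun h1 (Sum.inr x)
  -- combinations of the deformed monomials
  have hcomb : ∀ c : ι → ℝ, (∀ β : A, c ⟨β.1, hA β.1 β.2⟩ = 0) →
      (∀ i, ∀ a : Fin (n + 1) →₀ ℕ, a.degree ≤ e →
      coeff a (shift (pt t ε (P i)) (∑ α : ι, c α • bp t α.1)) = 0) → c = 0 := by
    intro c hcA hc
    have h1 : ph t ε (∑ α : ι, c α • bp t α.1) =
        ∑ α : ι, (c α * ε ^ (∑ i : Fin n, α.1 i.castSucc / t)) • bb t ε α.1 := by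
      rw [map_sum]
      refine Finset.sum_congr rfl fun α _ => ?_
      rw [map_smul, ph_bp, smul_smul]
    have h2 := hinj (fun α => c α * ε ^ (∑ i : Fin n, α.1 i.castSucc / t)) (by
      funext q
      rcases q with q | β
      · rw [hM, ← h1]
        exact vanish_ph t ε (P q.1) e _ (hc q.1) q.2.1 q.2.2
      · rw [hM2, hcA, zero_mul]
        rfl)
    funext α
    have h3 := congrFun h2 α
    simp only [Pi.zero_apply] at h3 ⊢
    exact (mul_eq_zero.1 h3).resolve_right (pow_ne_zero _ hε)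
  have hdeg : ∀ c : ι → ℝ, (∑ α : ι, c α • bp t α.1).totalDegree ≤ k := by
    intro c
    refine totalDegree_finsetSum_le fun α _ => ?_
    exact (totalDegree_smul_le _ _).trans ((bp_deg ht _).trans α.2)
  have hzero : ∀ F : MvPolynomial (Fin (n + 1)) ℝ, F.totalDegree ≤ k →
      (∀ β : Fin (n + 1) →₀ ℕ, β.degree ≤ k → coeff β F = 0) → F = 0 := by
    intro F hF hβ
    ext β
    rw [coeff_zero]
    by_cases hk : β.degree ≤ k
    · exact hβ β hk
    · apply coeff_eq_zero_of_totalDegree_lt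
      rw [not_le] at hk
      refine lt_of_le_of_lt hF ?_
      rw [Finsupp.degree_apply] at hk
      exact hk
  let Λ : (ι → ℝ) →ₗ[ℝ] (ι → ℝ) :=
    { toFun := fun c β => coeff β.1 (∑ α : ι, c α • bp t α.1)
      map_add' := by
        intro c d
        funext β
        simp only [Pi.add_apply, add_smul, Finset.sum_add_distrib, coeff_add]
      map_smul' := by
        intro x c
        funext β
        simp only [Pi.smul_apply, smul_eq_mul, RingHom.id_apply, mul_smul, ← Finset.smul_sum,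
          coeff_smul] }
  -- the deformed monomials are linearly independent
  have hΛ : Function.Injective Λ := by
    rw [← LinearMap.ker_eq_bot, LinearMap.ker_eq_bot']
    intro c hc
    have h1 : ∑ α : ι, c α • bp t α.1 = 0 := by
      apply hzero _ (hdeg c)
      intro β hβ
      exact congrFun hc ⟨β, hβ⟩
    have h2 : ∑ α : ι, (c α * ε ^ (∑ i : Fin n, α.1 i.castSucc / t)) • bb t ε α.1 = 0 := by
      have h3 : ph t ε (∑ α : ι, c α • bp t α.1) =
          ∑ α : ι, (c α * ε ^ (∑ i : Fin n, α.1 i.castSucc / t)) • bb t ε α.1 := by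
        rw [map_sum]
        refine Finset.sum_congr rfl fun α _ => ?_
        rw [map_smul, ph_bp, smul_smul]
      rw [← h3, h1, map_zero]
    have h4 := hinj2 (fun α => c α * ε ^ (∑ i : Fin n, α.1 i.castSucc / t)) (by
      funext β
      rw [hN, h2, coeff_zero]
      rfl)
    funext α
    have h5 := congrFun h4 α
    simp only [Pi.zero_apply] at h5 ⊢
    exact (mul_eq_zero.1 h5).resolve_right (pow_ne_zero _ hε)
  have hsur : Function.Surjective Λ := LinearMap.injective_iff_surjective.1 hΛ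
  let Λe : (ι → ℝ) ≃ₗ[ℝ] (ι → ℝ) := LinearEquiv.ofBijective Λ ⟨hΛ, hsur⟩
  let cf : MvPolynomial (Fin (n + 1)) ℝ →ₗ[ℝ] (ι → ℝ) :=
    LinearMap.pi fun β => lcoeff ℝ β.1
  let pr : (ι → ℝ) →ₗ[ℝ] (A → ℝ) :=
    LinearMap.pi fun β => LinearMap.proj (⟨β.1, hA β.1 β.2⟩ : ι)
  refine ⟨fun i => pt t ε (P i), pr ∘ₗ (Λe.symm : (ι → ℝ) →ₗ[ℝ] (ι → ℝ)) ∘ₗ cf, ?_⟩
  intro F hF hΦ hv
  obtain ⟨c, hc⟩ : ∃ c, c = Λe.symm (cf F) := ⟨_, rfl⟩
  have hc' : Λ c = cf F := by
    rw [hc]
    exact Λe.apply_symm_apply (cf F)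
  have h1 : ∑ α : ι, c α • bp t α.1 = F := by
    rw [← sub_eq_zero]
    apply hzero
    · exact (totalDegree_sub _ _).trans (max_le (hdeg c) hF)
    · intro β hβ
      rw [coeff_sub, sub_eq_zero]
      exact congrFun hc' ⟨β, hβ⟩
  have h2 : c = 0 := by
    apply hcomb
    · intro β
      have h3 := congrFun hΦ β
      rw [hc]
      exact h3
    · intro i a ha
      rw [h1]
      exact hv i a ha
  rw [← h1, h2]
  simp

end Pool.Agent.K7.H43.PW
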