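import Pool.Agent.K7.H43.PW.Gen
import Pool.Agent.K7.H43.PW.Num

/-!
`t ^ 3` points of multiplicity `m` in space, degree `t * m + t - 3`; the window in general.
-/

set_option autoImplicit false

namespace Pool.Agent.K7.H43.PW

open MvPolynomial Finset Pool.Agent.H938R2 Pool.Agent.TH176.FB

lemma max_of_zero {n r k m : ℕ}
    (h : ForGeneral (n + 2) r (fun p => Module.finrank ℂ (forms (n + 2) k (fun _ => m) p) = 0)) :
    ForGeneral (n + 2) r (fun p => Module.finrank ℂ (forms (n + 2) k (fun _ => m) p) =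
      (k + (n + 1)).choose (n + 1) - r * (m + n).choose (n + 1)) := by
  refine (h.and (forGeneral_ne_zero (by omega))).mono fun p hp => ?_
  have h8 := finrank_forms_ge (n + 1) k (fun _ : Fin r => m) p hp.2
  have h9 : m + (n + 1) - 1 = m + n := by omega
  have h10 := hp.1
  rw [h10, Finset.sum_const, Finset.card_univ, Fintype.card_fin, smul_eq_mul,
    h9] at h8
  rw [h10]
  omega

lemma max_of_le {n r k m D : ℕ}
    (h : ForGeneral (n + 2) r (fun p => Module.finrank ℂ (forms (n + 2) k (fun _ => m) p) ≤ D))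
    (hD : D + r * (m + n).choose (n + 1) ≤ (k + (n + 1)).choose (n + 1)) :
    ForGeneral (n + 2) r (fun p => Module.finrank ℂ (forms (n + 2) k (fun _ => m) p) =
      (k + (n + 1)).choose (n + 1) - r * (m + n).choose (n + 1)) := by
  refine (h.and (forGeneral_ne_zero (by omega))).mono fun p hp => ?_
  have h8 : (k + (n + 1)).choose (n + 1) ≤
      Module.finrank ℂ (forms (n + 2) k (fun _ : Fin r => m) p) +
        ∑ _i : Fin r, (m + (n + 1) - 1).choose (n + 1) :=
    finrank_forms_ge (n + 1) k (fun _ : Fin r => m) p hp.2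
  have h9 : m + (n + 1) - 1 = m + n := by omega
  have h10 := hp.1
  rw [Finset.sum_const, Finset.card_univ, Fintype.card_fin, smul_eq_mul,
    h9] at h8
  omega

/-- The number `e = t ^ r + (r - 1) * binom (c + r) r - binom (t + c + r) r`, `r = n + 1`. -/
def ee (n t c : ℕ) : ℕ :=
  t ^ (n + 1) + n * (c + (n + 1)).choose (n + 1) - (t + c + (n + 1)).choose (n + 1)

/-- Emptiness in the window. -/
theorem window (n t m c : ℕ) (hc : c < t) (hm : 1 ≤ m)
    (h : (c + (n + 1)).choose (n + 1) ≤ m * (ee n t c / n)) :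
    ForGeneral (n + 2) (t ^ (n + 1)) (fun p =>
      Module.finrank ℂ (forms (n + 2) (t * m + c) (fun _ => m) p) =
        (t * m + c + (n + 1)).choose (n + 1) - t ^ (n + 1) * (m + n).choose (n + 1)) := by
  have hpos : 0 < (c + (n + 1)).choose (n + 1) := Nat.choose_pos (by omega)
  have h1 : 0 < ee n t c / n := by
    by_contra hcon
    have h2 : ee n t c / n = 0 := Nat.eq_zero_of_not_pos hcon
    rw [h2, mul_zero] at h
    omega
  have h2 : n * (ee n t c / n) ≤ ee n t c := Nat.mul_div_le _ _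
  have hn : 0 < n := by
    by_contra hcon
    have h3 : n = 0 := by omega
    rw [h3, Nat.div_zero] at h1
    omega
  have h3 := Hc_window (n := n) hc
  have h4 : 0 < n * (ee n t c / n) := Nat.mul_pos hn h1
  refine max_of_zero (core_zero (fun _ => ee n t c / n) (by omega) hc hm ?_ fun _ => ?_)
  · rw [Finset.sum_const, Finset.card_univ, Fintype.card_fin, smul_eq_mul]
    unfold ee at h2 h4 ⊢
    omega
  · exact (Hc_le_choose n t c).trans h

/-- The exponents of degree `m` of two variables. -/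
noncomputable def gm (m i : ℕ) : Fin 2 →₀ ℕ :=
  Finsupp.single 0 i + Finsupp.single 1 (m - i)

lemma eq_gm {m : ℕ} {γ : Fin 2 →₀ ℕ} (h : γ.degree = m) : γ = gm m (γ 0) := by
  rw [Finsupp.degree_eq_sum, Fin.sum_univ_two] at h
  ext l
  fin_cases l
  · simp [gm]
  · simp [gm]
    omega

lemma weights (S0 S1 m : ℕ) :
    2 * ∑ i ∈ range (m + 1), (S1 * i + S0 * (m - i)) = (S0 + S1) * (m * (m + 1)) := by
  rw [Finset.sum_add_distrib, ← Finset.mul_sum, ← Finset.mul_sum]
  have h1 : ∑ i ∈ range (m + 1), (m - i) = ∑ i ∈ range (m + 1), i :=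
    Finset.sum_flip (fun i => i)
  rw [h1]
  have h2 : (∑ i ∈ range (m + 1), i) * 2 = (m + 1) * m := by
    have := Finset.sum_range_id_mul_two (m + 1)
    rwa [Nat.add_sub_cancel] at this
  nlinarith [h2]

/-- The case that the number of conditions on the top coefficients is small. -/
lemma space_small (t m S0 S1 : ℕ) (ht : 3 ≤ t) (hm : 1 ≤ m) (hS : S0 + S1 = t ^ 2)
    (hS01 : S0 ≤ S1) (h : m * S1 ≤ t.choose 3) :
    ForGeneral 4 (t ^ 3) (fun p =>
      Module.finrank ℂ (forms 4 (t * m + (t - 3)) (fun _ => m) p) =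
        (t * m + (t - 3) + 3).choose 3 - t ^ 3 * (m + 2).choose 3) := by
  classical
  obtain ⟨c, rfl⟩ : ∃ c, t = c + 3 := ⟨t - 3, by omega⟩
  obtain ⟨t, ht'⟩ : ∃ t, t = c + 3 := ⟨_, rfl⟩
  rw [← ht'] at hS h ⊢
  have hc : t - 3 = c := by omega
  rw [hc]
  obtain ⟨k, hk⟩ : ∃ k, k = t * m + c := ⟨_, rfl⟩
  -- the choice of the set
  have hfin : {α : Fin 3 →₀ ℕ | α.degree ≤ k}.Finite := Finsupp.finite_of_degree_le k
  let B : ℕ → Finset (Fin 3 →₀ ℕ) := fun i => hfin.toFinset.filter fun α =>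
    J13.be t α = gm m i
  have hBmem : ∀ i α, α ∈ B i ↔ α.degree ≤ k ∧ J13.be t α = gm m i := by
    intro i α
    simp only [B, Finset.mem_filter, Set.Finite.mem_toFinset, Set.mem_setOf_eq]
  have hgdeg : ∀ i, i ≤ m → (gm m i).degree = m := by
    intro i hi
    rw [Finsupp.degree_eq_sum, Fin.sum_univ_two]
    simp [gm]
    omega
  have hBcard : ∀ i, i ≤ m → (B i).card ≤ t.choose 3 := by
    intro i hi
    have h1 := J17.card_fibre (n := 2) (k := t * m + c) (by omega : 1 ≤ t) (gm m i) (B i)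
      (fun α hα => ((hBmem i α).1 hα).2)
      (fun α hα => hk ▸ ((hBmem i α).1 hα).1)
    rw [hgdeg i hi, Nat.add_sub_cancel_left] at h1
    refine h1.trans ((Hc_le_choose 2 t c).trans (le_of_eq ?_))
    rw [ht']
  have hch : ∀ i, ∃ A' : Finset (Fin 3 →₀ ℕ), A' ⊆ B i ∧
      A'.card = (B i).card - (S1 * i + S0 * (m - i)) :=
    fun i => Finset.exists_subset_card_eq (Nat.sub_le _ _)
  choose A' hA1 hA2 using hch
  let A : Finset (Fin 3 →₀ ℕ) := (range (m + 1)).biUnion A'
  have hAd : ∀ α ∈ A, α.degree ≤ t * m + c := by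
    intro α hα
    obtain ⟨i, _, hi⟩ := Finset.mem_biUnion.1 hα
    have := ((hBmem i α).1 (hA1 i hi)).1
    omega
  have hZ : ∀ i, i ≤ m → S1 * i + S0 * (m - i) ≤ t.choose 3 := by
    intro i hi
    refine le_trans ?_ h
    obtain ⟨j, rfl⟩ := Nat.exists_eq_add_of_le hi
    rw [Nat.add_sub_cancel_left]
    nlinarith [Nat.mul_le_mul_right j hS01]
  have hAcard : A.card ≤ ∑ i ∈ range (m + 1), (t.choose 3 - (S1 * i + S0 * (m - i))) := by
    refine Finset.card_biUnion_le.trans (Finset.sum_le_sum fun i hi => ?_)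
    rw [hA2]
    have := hBcard i (by rw [Finset.mem_range] at hi; omega)
    omega
  have hsum : ∑ i ∈ range (m + 1), (t.choose 3 - (S1 * i + S0 * (m - i))) +
      ∑ i ∈ range (m + 1), (S1 * i + S0 * (m - i)) = (m + 1) * t.choose 3 := by
    rw [← Finset.sum_add_distrib]
    have h1 : ∀ i ∈ range (m + 1), t.choose 3 - (S1 * i + S0 * (m - i)) +
        (S1 * i + S0 * (m - i)) = t.choose 3 := by
      intro i hi
      have := hZ i (by rw [Finset.mem_range] at hi; omega)
      omega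
    rw [Finset.sum_congr rfl h1, Finset.sum_const, Finset.card_range, smul_eq_mul]
  have hw := weights S0 S1 m
  rw [hS] at hw
  have key := core_le (n := 2) (t := t) (m := m) (c := c) ![S1, S0] (by omega) (by omega) hm
    (by
      rw [Fin.sum_univ_two]
      simp only [Matrix.cons_val_zero, Matrix.cons_val_one]
      have h1 := Hc_window (n := 2) (t := t) (c := c) (by omega)
      have h2 := six_choose (c + 1)
      have h3 := six_choose (t + c + 1)
      have e1 : c + 1 + 2 = c + (2 + 1) := by ring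
      have e2 : t + c + 1 + 2 = t + c + (2 + 1) := by ring
      rw [e1] at h2
      rw [e2] at h3
      have h4 : (c + (2 + 1)) = t := by omega
      have h5 : 6 * (t + c + (2 + 1)).choose 3 + 6 * t ^ 2 =
          6 * t ^ 3 + 2 * (6 * (c + (2 + 1)).choose 3) := by
        rw [h2, h3]
        subst ht'
        ring
      have h6 : (2 + 1 : ℕ) = 3 := rfl
      rw [h6] at h1 h5 ⊢
      omega) A hAd (by
      intro γ B' hγ hB'
      have h1 := eq_gm hγ
      have h2 : γ 0 ≤ m := by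
        have := le_degree γ 0
        omega
      have h3 : B' ⊆ B (γ 0) \ A' (γ 0) := by
        intro α hα
        obtain ⟨h4, h5, h6⟩ := hB' α hα
        rw [Finset.mem_sdiff]
        refine ⟨(hBmem _ _).2 ⟨by omega, by rw [h4]; exact h1⟩, fun h7 => h6 ?_⟩
        exact Finset.mem_biUnion.2 ⟨γ 0, Finset.mem_range.2 (by omega), h7⟩
      refine (Finset.card_le_card h3).trans ?_
      rw [Finset.card_sdiff_of_subset (hA1 _), hA2, Fin.sum_univ_two]
      simp only [Matrix.cons_val_zero, Matrix.cons_val_one]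
      have h4 : γ 1 = m - γ 0 := by
        rw [Finsupp.degree_eq_sum, Fin.sum_univ_two] at hγ
        omega
      rw [h4]
      omega)
  refine max_of_le (n := 2) (key.mono fun p hp => hp.trans hAcard) ?_
  have e0 : 2 + 1 = 3 := rfl
  rw [e0]
  obtain ⟨D, hD⟩ : ∃ D, D = ∑ i ∈ range (m + 1), (t.choose 3 - (S1 * i + S0 * (m - i))) :=
    ⟨_, rfl⟩
  obtain ⟨W, hW⟩ : ∃ W, W = ∑ i ∈ range (m + 1), (S1 * i + S0 * (m - i)) := ⟨_, rfl⟩
  rw [← hD, ← hW] at hsum
  rw [← hW] at hw
  rw [← hD]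
  have h1 := six_choose (c + 1)
  have h2 := six_choose m
  have h3 := six_choose (t * m + c + 1)
  have e1 : c + 1 + 2 = t := by omega
  have e2 : t * m + c + 1 + 2 = t * m + c + 3 := by ring
  rw [e1] at h1
  rw [e2] at h3
  have h4 : 6 * D + 3 * (t ^ 2 * (m * (m + 1))) = (m + 1) * (t * (c + 1 + 1) * (c + 1)) := by
    rw [← h1, ← hw]
    have : (m + 1) * (6 * t.choose 3) = 6 * ((m + 1) * t.choose 3) := by ring
    rw [this, ← hsum]
    ring
  have h5 : 6 * (D + t ^ 3 * (m + 2).choose 3) = 6 * (t * m + c + 3).choose 3 := by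
    rw [h3, Nat.mul_add]
    have h6 : 6 * (t ^ 3 * (m + 2).choose 3) = t ^ 3 * (6 * (m + 2).choose 3) := by ring
    rw [h6, h2]
    subst ht'
    zify at h4 ⊢
    linear_combination h4
  omega

/-- `t ^ 3` points of multiplicity `m` in degree `t * m + t - 3`. -/
theorem space_top (t m : ℕ) (ht : 3 ≤ t) (hm : 1 ≤ m) :
    ForGeneral 4 (t ^ 3) (fun p =>
      Module.finrank ℂ (forms 4 (t * m + (t - 3)) (fun _ => m) p) =
        (t * m + (t - 3) + 3).choose 3 - t ^ 3 * (m + 2).choose 3) := by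
  obtain ⟨S0, hS0⟩ : ∃ S0, S0 = t ^ 2 / 2 := ⟨_, rfl⟩
  obtain ⟨S1, hS1⟩ : ∃ S1, S1 = t ^ 2 - t ^ 2 / 2 := ⟨_, rfl⟩
  rcases Nat.lt_or_ge (t.choose 3) (m * S1) with h | h
  swap
  · exact space_small t m S0 S1 ht hm (by omega) (by omega) h
  have he : (t - 3 + (2 + 1)).choose (2 + 1) = t.choose 3 := by
    have : t - 3 + (2 + 1) = t := by omega
    rw [this]
  have hee : ee 2 t (t - 3) = t ^ 2 := by
    obtain ⟨c, rfl⟩ : ∃ c, t = c + 3 := ⟨t - 3, by omega⟩
    have e1 : c + 3 - 3 = c := by omega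
    have h2 := six_choose (c + 1)
    have h3 := six_choose (c + 3 + c + 1)
    unfold ee
    have e5 : c + 3 - 3 + (2 + 1) = c + 1 + 2 := by omega
    have e6 : c + 3 + (c + 3 - 3) + (2 + 1) = c + 3 + c + 1 + 2 := by omega
    have e4 : 2 + 1 = 3 := rfl
    rw [e5, e6, e4]
    have h5 : 6 * (c + 3 + c + 1 + 2).choose 3 + 6 * (c + 3) ^ 2 =
        6 * (c + 3) ^ 3 + 2 * (6 * (c + 1 + 2).choose 3) := by
      rw [h2, h3]
      ring
    omega
  rcases Nat.lt_or_ge (m * S0) (t.choose 3) with h1 | h1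
  swap
  · refine window 2 t m (t - 3) (by omega) hm ?_
    rw [hee, he, ← hS0]
    exact h1
  -- this case is impossible
  exfalso
  have h6 := six_choose (t - 2)
  have e1 : t - 2 + 2 = t := by omega
  rw [e1] at h6
  obtain ⟨u, rfl⟩ : ∃ u, t = u + 3 := ⟨t - 3, by omega⟩
  have e2 : u + 3 - 2 = u + 1 := by omega
  rw [e2] at h6
  obtain ⟨N, hN⟩ : ∃ N, N = (u + 3).choose 3 := ⟨_, rfl⟩
  rw [← hN] at h h1 h6
  have hodd : S0 + S1 = (u + 3) ^ 2 := by omega
  have hS : S1 = S0 + 1 := by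
    by_contra hcon
    have : S1 = S0 := by omega
    rw [this] at h
    omega
  have h7 : 2 * (m * S0) + m = m * (u + 3) ^ 2 := by
    rw [← hodd, hS]; ring
  have h8 : m * S1 = m * S0 + m := by rw [hS]; ring
  rw [h8] at h
  have hlt : 3 * m < u + 3 := by
    have h9 : 6 * (m * S0) < (u + 3) * (u + 1 + 1) * (u + 1) := by omega
    have h10 : 6 * (m * S0) + 3 * m = 3 * m * (u + 3) ^ 2 := by linarith
    by_contra hcon
    push Not at hcon
    have h11 : (u + 3) * ((u + 3) ^ 2 - 1) ≤ 3 * m * ((u + 3) ^ 2 - 1) :=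
      Nat.mul_le_mul_right _ hcon
    have h12 : 3 * m * ((u + 3) ^ 2 - 1) = 6 * (m * S0) := by
      rw [Nat.mul_sub, mul_one, ← h10]
      omega
    have h13 : (u + 3) ^ 2 - 1 = (u + 2) * (u + 4) := by
      have : (u + 3) ^ 2 = (u + 2) * (u + 4) + 1 := by ring
      omega
    rw [h12, h13] at h11
    nlinarith
  obtain ⟨ρ, hρ⟩ : ∃ ρ : ℤ, ρ = 2 * (N : ℤ) - m * (u + 3) ^ 2 := ⟨_, rfl⟩
  have hd : ((u : ℤ) + 3) ∣ 3 * ρ := by
    refine ⟨(u + 2) * (u + 1) - 3 * m * (u + 3), ?_⟩
    rw [hρ]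
    zify at h6
    linear_combination h6
  have habs : |3 * ρ| < (u : ℤ) + 3 := by
    zify at h h1 h7 hlt
    rw [abs_lt]
    constructor <;> · rw [hρ]; linarith
  have h0 := Int.eq_zero_of_abs_lt_dvd hd habs
  have h14 : (2 : ℤ) * N = m * (u + 3) ^ 2 := by linarith
  have h15 : ((u : ℤ) + 3) * ((u + 2) * (u + 1) - 3 * m * (u + 3)) = 0 := by
    zify at h6
    linear_combination (-1 : ℤ) * h6 + 3 * h14
  have h16 : ((u : ℤ) + 2) * (u + 1) - 3 * m * (u + 3) = 0 := by
    rcases mul_eq_zero.1 h15 with h17 | h17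
    · exfalso
      have : (0 : ℤ) ≤ u := by positivity
      omega
    · exact h17
  have h17 : ((u : ℤ) + 3) ∣ 2 := by
    refine ⟨3 * m - u, ?_⟩
    linear_combination h16
  have h18 := Int.le_of_dvd (by norm_num) h17
  omega

end Pool.Agent.K7.H43.PW
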